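import Pool.Agent.helper76.UF.Spec

set_option autoImplicit false

namespace Pool.Agent.UF

open Finset Polynomial NumberField

private theorem NPP_root (F d e j : ℕ) (hF : 0 < F) (he : 2 ≤ e) (hc : Nat.Coprime e j)
    (h : d ^ e = F ^ j) : ∃ k : ℕ, k ^ e = F := by
  obtain ⟨m, hm⟩ := Nat.exists_mul_mod_eq_one_of_coprime hc.symm (by omega)
  have h1 : e ∣ 1 + m * (e - 1) * j := by
    have h2 : j * m = e * (j * m / e) + 1 := by
      have := Nat.div_add_mod (j * m) e
      omega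
    refine ⟨1 + (e - 1) * (j * m / e), ?_⟩
    obtain ⟨s, rfl⟩ : ∃ s, e = s + 2 := ⟨e - 2, by omega⟩
    have h3 : s + 2 - 1 = s + 1 := by omega
    rw [h3] at *
    calc 1 + m * (s + 1) * j = 1 + (s + 1) * (j * m) := by ring
      _ = 1 + (s + 1) * ((s + 2) * (j * m / (s + 2)) + 1) := by rw [← h2]
      _ = (s + 2) * (1 + (s + 1) * (j * m / (s + 2))) := by ring
  obtain ⟨u, hu⟩ := h1
  set v := m * (e - 1) with hv
  have h4 : (F ^ u) ^ e = F * (d ^ v) ^ e := by
    calc (F ^ u) ^ e = F ^ (e * u) := by rw [← pow_mul, mul_comm]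
      _ = F ^ (1 + v * j) := by rw [← hu]
      _ = F * (F ^ j) ^ v := by rw [pow_add, pow_one, mul_comm v j, pow_mul]
      _ = F * (d ^ v) ^ e := by rw [← h, ← pow_mul, ← pow_mul, mul_comm e v]
  have hd : 0 < d := by
    rcases Nat.eq_zero_or_pos d with h0 | h0
    · rw [h0, zero_pow (by omega)] at h
      exact absurd h.symm (pow_pos hF j).ne'
    · exact h0
  have h5 : (d ^ v) ^ e ∣ (F ^ u) ^ e := ⟨F, by rw [h4, mul_comm]⟩
  rw [Nat.pow_dvd_pow_iff (by omega)] at h5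
  obtain ⟨k, hk⟩ := h5
  refine ⟨k, ?_⟩
  rw [hk, mul_pow, mul_comm F] at h4
  exact Nat.eq_of_mul_eq_mul_left (pow_pos (pow_pos hd v) e) h4

private theorem NPP_two (n k : ℕ) (h : k ^ 2 = fer n) : False := by
  unfold fer at h
  cases n with
  | zero =>
    have h1 : k ≤ 1 ∨ 2 ≤ k := by omega
    rcases h1 with h1 | h1
    · have : k ^ 2 ≤ 1 ^ 2 := Nat.pow_le_pow_left h1 2
      norm_num at h
      omega
    · have : 2 ^ 2 ≤ k ^ 2 := Nat.pow_le_pow_left h1 2
      norm_num at h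
      omega
  | succ n =>
    have h1 : (2 : ℕ) ^ 2 ^ (n + 1) = (2 ^ 2 ^ n) ^ 2 := by
      rw [← pow_mul, pow_succ]
    rw [h1] at h
    set w : ℕ := 2 ^ 2 ^ n with hw
    have hw1 : 1 ≤ w := Nat.one_le_two_pow
    have h2 : w < k := by
      by_contra h3
      have : k ^ 2 ≤ w ^ 2 := Nat.pow_le_pow_left (by omega) 2
      omega
    have h3 : (w + 1) ^ 2 ≤ k ^ 2 := Nat.pow_le_pow_left h2 2
    nlinarith

private theorem NPP_odd (n k r : ℕ) (hr : Odd r) (hr2 : 2 ≤ r) (h : k ^ r = fer n) : False := by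
  unfold fer at h
  have hM : 2 ^ n ≠ 0 := by positivity
  have hk : Odd k := by
    have h1 : Odd (k ^ r) := by
      rw [h]
      exact Even.add_one ((even_two).pow_of_ne_zero hM)
    exact (Nat.odd_pow_iff (by omega)).1 h1
  have hk1 : 1 ≤ k := hk.pos
  set S : ℕ := ∑ i ∈ range r, k ^ i with hS
  have hSodd : Odd S := by
    rw [hS, odd_sum_iff_odd_card_odd, filter_true_of_mem (fun i _ => hk.pow), card_range]
    exact hr
  have hmul : S * (k - 1) = 2 ^ 2 ^ n := by
    have h1 : ((S * (k - 1) : ℕ) : ℤ) = ((2 ^ 2 ^ n : ℕ) : ℤ) := by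
      rw [Nat.cast_mul, Nat.cast_sub hk1, hS, Nat.cast_sum, Nat.cast_one]
      have h2 := geom_sum_mul (k : ℤ) r
      have h3 : ((k ^ r : ℕ) : ℤ) = ((2 ^ 2 ^ n + 1 : ℕ) : ℤ) := by rw [h]
      push_cast at h3 ⊢
      rw [h2, h3]
      ring
    exact_mod_cast h1
  have hS1 : S = 1 := by
    have h1 : S ∣ 2 ^ 2 ^ n := ⟨k - 1, hmul.symm⟩
    exact Nat.Coprime.eq_one_of_dvd ((Nat.coprime_two_right.2 hSodd).pow_right _) h1
  have hS2 : 2 ≤ S := by
    have h1 : ∑ i ∈ range 2, k ^ i ≤ S := by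
      rw [hS]
      exact sum_le_sum_of_subset (range_subset_range.2 hr2)
    rw [sum_range_succ, sum_range_one, pow_zero, pow_one] at h1
    omega
  omega

theorem NPP : NPP_stmt := by
  intro n j e d hj hje h
  have hF : 0 < fer n := Nat.succ_pos _
  have hg : 0 < Nat.gcd e j := Nat.gcd_pos_of_pos_right e hj
  obtain ⟨e', j', hc, he, hjj⟩ := Nat.exists_coprime e j
  set g := Nat.gcd e j with hgd
  have hle : j' < e' := by
    by_contra h1
    have : e' * g ≤ j' * g := Nat.mul_le_mul_right g (by omega)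
    omega
  have hj' : 0 < j' := by
    rcases Nat.eq_zero_or_pos j' with h1 | h1
    · rw [h1, zero_mul] at hjj
      omega
    · exact h1
  have h2 : d ^ e' = fer n ^ j' := by
    have h3 : (d ^ e') ^ g = (fer n ^ j') ^ g := by
      rw [← pow_mul, ← pow_mul, ← he, ← hjj, h]
    exact Nat.pow_left_injective hg.ne' h3
  obtain ⟨k, hk⟩ := NPP_root (fer n) d e' j' hF (by omega) hc h2
  obtain ⟨r, hr, hre⟩ := Nat.exists_prime_and_dvd (n := e') (by omega)
  obtain ⟨s, hs⟩ := hre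
  have h4 : (k ^ s) ^ r = fer n := by
    rw [← pow_mul, mul_comm, ← hs, hk]
  rcases hr.eq_two_or_odd' with h5 | h5
  · rw [h5] at h4
    exact NPP_two n _ h4
  · exact NPP_odd n _ r h5 hr.two_le h4

end Pool.Agent.UF
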